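import Mathlib

/-!
# A point of a compact space which avoids measures but does not avoid ccc spaces

Let `T` be the set of all functions `ℕ → ℕ`. For `N : ℕ` let `K N` be the compact space of all sets
`S ⊆ T` such that for every `j` every node of level `j` has at most `N + j` immediate successors in
the tree of all initial segments of members of `S`. Then `K N` is ccc, any `N` of the clopen sets
`{S | t ∈ S}` have a point in common, and every probability measure vanishes on one of them. The
space is a compactification of the disjoint union of the spaces `K N`, generated by the clopen sets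
`{(N, S) | F N ⊆ S}` where `F N` is a finite subset of `T` with `o(N)` elements, and the point is the
one that belongs to the closures of all these sets and is outside the union.
-/

set_option autoImplicit false

open Set Topology Filter MeasureTheory

namespace Pool.Agent.Results.MP_843a88_gt.AvoidsMeasuresNotCcc

section Defs

/-- A space is ccc if it has no uncountable family of pairwise disjoint nonempty open sets. -/
def IsCcc (Z : Type) [TopologicalSpace Z] : Prop :=
  ∀ 𝒰 : Set (Set Z), (∀ U ∈ 𝒰, IsOpen U ∧ U.Nonempty) → 𝒰.PairwiseDisjoint id → 𝒰.Countable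

variable {X : Type} [TopologicalSpace X]

/-- Radon probability measures. -/
structure IsRadonProb [MeasurableSpace X] (μ : Measure X) : Prop where
  prob : μ univ = 1
  inner : ∀ B, MeasurableSet B → μ B = ⨆ (K : Set X) (_ : IsCompact K ∧ K ⊆ B), μ K
  outer : ∀ B, MeasurableSet B → μ B = ⨅ (U : Set X) (_ : IsOpen U ∧ B ⊆ U), μ U

/-- The support: the intersection of all closed sets of measure `1`. -/
def supp [MeasurableSpace X] (μ : Measure X) : Set X := ⋂₀ {C | IsClosed C ∧ μ C = 1}

/-- The point `x` avoids measures. -/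
def AvoidsMeasures (x : X) : Prop :=
  ∀ [MeasurableSpace X] [BorelSpace X] (μ : Measure X), IsRadonProb μ → μ {x} = 0 → x ∉ supp μ

/-- The point `x` avoids ccc spaces. -/
def AvoidsCcc (x : X) : Prop := ∀ Y : Set X, IsCcc Y → x ∉ Y → x ∉ closure Y

end Defs

/-! ## Bool-valued functions -/

lemma isOpen_agree {I : Type} (z : I → Bool) (I₀ : Finset I) :
    IsOpen {z' : I → Bool | ∀ i ∈ I₀, z' i = z i} := by
  have : {z' : I → Bool | ∀ i ∈ I₀, z' i = z i} = (I₀ : Set I).pi (fun i => {z i}) := by
    ext z'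
    simp [Set.mem_pi]
  rw [this]
  exact isOpen_set_pi I₀.finite_toSet (fun i _ => isOpen_discrete _)

lemma exists_agree {I : Type} {O : Set (I → Bool)} (hO : IsOpen O) {z : I → Bool} (hz : z ∈ O) :
    ∃ I₀ : Finset I, ∀ z', (∀ i ∈ I₀, z' i = z i) → z' ∈ O := by
  obtain ⟨I₀, u, hu, hsub⟩ := isOpen_pi_iff.1 hO z hz
  refine ⟨I₀, fun z' hz' => hsub ?_⟩
  intro i hi
  rw [hz' i hi]
  exact (hu i hi).2

/-! ## The space -/

abbrev T : Type := ℕ → ℕ

/-- The members of `K N`. -/
def Adm (N : ℕ) (S : Set T) : Prop :=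
  ∀ (j : ℕ) (W : Finset T), (W : Set T) ⊆ S → (∀ r ∈ W, ∀ r' ∈ W, ∀ i < j, r i = r' i) →
    Set.InjOn (fun r : T => r j) (W : Set T) → W.card ≤ N + j

/-- Sequences of finite subsets of `T` with `o(N)` elements. -/
def Slow : Type := {F : ℕ → Finset T // ∀ r : ℕ, ∀ᶠ N in atTop, r * (F N).card ≤ N}

abbrev Idx : Type := ℕ ⊕ (ℕ × T) ⊕ Slow

open Classical in
noncomputable def e (N : ℕ) (S : Set T) : Idx → Bool
  | .inl n => decide (N = n)
  | .inr (.inl p) => decide (N = p.1 ∧ p.2 ∈ S)
  | .inr (.inr F) => decide ((F.1 N : Set T) ⊆ S)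

def Y0 : Set (Idx → Bool) := {z | ∃ N S, Adm N S ∧ z = e N S}

abbrev X : Type := closure Y0

def x0 : Idx → Bool
  | .inl _ => false
  | .inr (.inl _) => false
  | .inr (.inr _) => true

instance : CompactSpace X := isCompact_iff_compactSpace.1 isClosed_closure.isCompact

lemma approx {z : Idx → Bool} (hz : z ∈ closure Y0) (I₀ : Finset Idx) :
    ∃ N S, Adm N S ∧ ∀ i ∈ I₀, e N S i = z i := by
  obtain ⟨y, hy1, N, S, hS, rfl⟩ := mem_closure_iff.1 hz _ (isOpen_agree z I₀) (fun i _ => rfl)
  exact ⟨N, S, hS, hy1⟩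

lemma adm_of_card {N : ℕ} (S : Finset T) (h : S.card ≤ N) : Adm N (S : Set T) := by
  intro j W hW _ _
  have : W.card ≤ S.card := Finset.card_le_card (by exact_mod_cast hW)
  omega

lemma x0_mem : x0 ∈ closure Y0 := by
  classical
  rw [mem_closure_iff]
  intro O hO hx
  obtain ⟨I₀, hI⟩ := exists_agree hO hx
  let f : ℕ → Idx → Finset T := fun N i =>
    match i with
    | .inl _ => ∅
    | .inr (.inl _) => ∅
    | .inr (.inr F) => F.1 N
  have h1 : ∀ᶠ N in atTop, ∀ i ∈ I₀, (∀ n, i = .inl n → N ≠ n) ∧
      (∀ p, i = .inr (.inl p) → N ≠ p.1) ∧ I₀.card * (f N i).card ≤ N := by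
    rw [Filter.eventually_all_finset]
    intro i _
    match i with
    | .inl n =>
      filter_upwards [eventually_gt_atTop n] with N hN
      refine ⟨?_, ?_, ?_⟩
      · rintro m hm
        cases hm
        omega
      · rintro p hp
        cases hp
      · simp [f]
    | .inr (.inl p) =>
      filter_upwards [eventually_gt_atTop p.1] with N hN
      refine ⟨?_, ?_, ?_⟩
      · rintro m hm
        cases hm
      · rintro q hq
        cases hq
        omega
      · simp [f]
    | .inr (.inr F) =>
      filter_upwards [F.2 I₀.card] with N hN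
      refine ⟨?_, ?_, ?_⟩
      · rintro m hm
        cases hm
      · rintro q hq
        cases hq
      · simpa [f] using hN
  obtain ⟨N, hN⟩ := h1.exists
  let S : Finset T := I₀.biUnion (f N)
  have hcard : S.card ≤ N := by
    rcases Nat.eq_zero_or_pos I₀.card with h0 | h0
    · have : I₀ = ∅ := Finset.card_eq_zero.1 h0
      simp [S, this]
    · have h2 : S.card ≤ I₀.card * (N / I₀.card) := by
        apply Finset.card_biUnion_le_card_mul
        intro i hi
        rw [Nat.le_div_iff_mul_le h0, mul_comm]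
        exact (hN i hi).2.2
      exact h2.trans (Nat.mul_div_le _ _)
  refine ⟨e N S, hI _ ?_, N, S, adm_of_card S hcard, rfl⟩
  intro i hi
  match i, hi with
  | .inl n, hi =>
    have := (hN _ hi).1 n rfl
    simp [e, x0, this]
  | .inr (.inl p), hi =>
    have := (hN _ hi).2.1 p rfl
    simp [e, x0, this]
  | .inr (.inr F), hi =>
    have : (F.1 N : Set T) ⊆ S := by
      have := Finset.subset_biUnion_of_mem (f N) hi
      exact_mod_cast this
    simp only [e, x0]
    simpa using this

/-- The special point. -/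
def pt : X := ⟨x0, x0_mem⟩

/-! ## Diagonalization -/

lemma diag (G : ℕ → Slow) : ∃ F : Slow, ∀ k, ∀ᶠ N in atTop, (G k).1 N ⊆ F.1 N := by
  classical
  let P : ℕ → ℕ → Prop := fun N k => ∀ i ≤ k, (k + 1) ^ 2 * ((G i).1 N).card ≤ N
  have hP : ∀ k, ∀ᶠ N in atTop, P N k := by
    intro k
    have h1 : ∀ i ∈ Finset.range (k + 1), ∀ᶠ N in atTop, (k + 1) ^ 2 * ((G i).1 N).card ≤ N :=
      fun i _ => (G i).2 _
    have h2 := (Filter.eventually_all_finset (Finset.range (k + 1))).2 h1
    filter_upwards [h2] with N hN i hi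
    exact hN i (Finset.mem_range.2 (by omega))
  let j : ℕ → ℕ := fun N => Nat.findGreatest (P N) N
  have hj1 : ∀ k, ∀ᶠ N in atTop, k ≤ j N := by
    intro k
    filter_upwards [hP k, eventually_ge_atTop k] with N h1 h2
    exact Nat.le_findGreatest h2 h1
  have hj2 : ∀ᶠ N in atTop, P N (j N) := by
    filter_upwards [hP 0] with N h1
    exact Nat.findGreatest_spec (m := 0) (Nat.zero_le _) h1
  refine ⟨⟨fun N => (Finset.range (j N + 1)).biUnion (fun i => (G i).1 N), ?_⟩, ?_⟩
  · intro r
    filter_upwards [hj1 r, hj2] with N h1 h2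
    have hcard : ((Finset.range (j N + 1)).biUnion (fun i => (G i).1 N)).card ≤
        (j N + 1) * (N / (j N + 1) ^ 2) := by
      have h3 := Finset.card_biUnion_le_card_mul (Finset.range (j N + 1)) (fun i => (G i).1 N)
        (N / (j N + 1) ^ 2) ?_
      · simpa using h3
      · intro i hi
        rw [Nat.le_div_iff_mul_le (by positivity), mul_comm]
        exact h2 i (by have := Finset.mem_range.1 hi; omega)
    calc r * _ ≤ (j N + 1) * ((j N + 1) * (N / (j N + 1) ^ 2)) :=
          Nat.mul_le_mul (by omega) hcard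
      _ = (j N + 1) ^ 2 * (N / (j N + 1) ^ 2) := by ring
      _ ≤ N := Nat.mul_div_le _ _
  · intro k
    filter_upwards [hj1 k] with N h1
    exact Finset.subset_biUnion_of_mem (fun i => (G i).1 N) (Finset.mem_range.2 (by omega))

lemma diag' (C : Set Slow) (hC : C.Countable) (hne : C.Nonempty) :
    ∃ F : Slow, ∀ G ∈ C, ∀ᶠ N in atTop, G.1 N ⊆ F.1 N := by
  obtain ⟨g, hg⟩ := hC.exists_eq_range hne
  obtain ⟨F, hF⟩ := diag g
  refine ⟨F, fun G hG => ?_⟩
  rw [hg] at hG
  obtain ⟨k, rfl⟩ := hG
  exact hF k

/-! ## The measures -/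

def A (i : Idx) : Set X := {z | z.1 i = true}

lemma isClopen_A (i : Idx) : IsClopen (A i) := by
  have : A i = (fun z : X => z.1 i) ⁻¹' {true} := rfl
  rw [this]
  exact (isClopen_discrete _).preimage ((continuous_apply i).comp continuous_subtype_val)

lemma count (N m M : ℕ) (u : ℕ → ℕ) (t : ℕ → T) (h1 : ∀ i, ∀ k < m, t i k = u k)
    (h2 : ∀ i, t i m = i) (z : X) [DecidablePred fun i => z ∈ A (.inr (.inl (N, t i)))] :
    ((Finset.range M).filter (fun i => z ∈ A (.inr (.inl (N, t i))))).card ≤ N + m := by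
  classical
  obtain ⟨N', S, hS, hag⟩ := approx z.2
    ((Finset.range M).image (fun i => (.inr (.inl (N, t i)) : Idx)))
  have hinj : Function.Injective t := by
    intro a b hab
    have := congrFun hab m
    rw [h2, h2] at this
    exact this
  have hmem : ∀ i ∈ (Finset.range M).filter (fun i => z ∈ A (.inr (.inl (N, t i)))),
      N' = N ∧ t i ∈ S := by
    intro i hi
    rw [Finset.mem_filter] at hi
    have h3 := hag (.inr (.inl (N, t i))) (Finset.mem_image.2 ⟨i, hi.1, rfl⟩)
    have h4 : z.1 (.inr (.inl (N, t i))) = true := hi.2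
    rw [h4] at h3
    simpa [e] using h3
  rcases ((Finset.range M).filter (fun i => z ∈ A (.inr (.inl (N, t i))))).eq_empty_or_nonempty
    with h0 | ⟨i₀, hi₀⟩
  · rw [h0]
    simp
  · obtain ⟨rfl, -⟩ := hmem i₀ hi₀
    have := hS m (((Finset.range M).filter (fun i => z ∈ A (.inr (.inl (N', t i))))).image t)
      (by
        intro r hr
        obtain ⟨i, hi, rfl⟩ := Finset.mem_image.1 (Finset.mem_coe.1 hr)
        exact (hmem i hi).2)
      (by
        intro r hr r' hr' k hk
        obtain ⟨i, hi, rfl⟩ := Finset.mem_image.1 hr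
        obtain ⟨i', hi', rfl⟩ := Finset.mem_image.1 hr'
        rw [h1 i k hk, h1 i' k hk])
      (by
        intro r hr r' hr' hrr
        obtain ⟨i, hi, rfl⟩ := Finset.mem_image.1 (Finset.mem_coe.1 hr)
        obtain ⟨i', hi', rfl⟩ := Finset.mem_image.1 (Finset.mem_coe.1 hr')
        simp only [h2] at hrr
        rw [hrr])
    rwa [Finset.card_image_of_injective _ hinj] at this

lemma exists_null [MeasurableSpace X] [BorelSpace X] (μ : Measure X) (hμ : μ univ = 1) (N : ℕ) :
    ∃ t : T, μ (A (.inr (.inl (N, t)))) = 0 := by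
  classical
  by_contra hcon
  push Not at hcon
  have key : ∀ (m : ℕ) (u : ℕ → ℕ), ∃ i : ℕ, ∀ t : T, (∀ k < m, t k = u k) → t m = i →
      μ (A (.inr (.inl (N, t)))) ≤ ((m : ENNReal) + 1)⁻¹ := by
    intro m u
    by_contra hc
    push Not at hc
    choose t ht1 ht2 ht3 using hc
    have h1 : ∑ i ∈ Finset.range ((m + 1) * (N + m + 1)), μ (A (.inr (.inl (N, t i)))) ≤
        ((N + m : ℕ) : ENNReal) := by
      calc ∑ i ∈ Finset.range ((m + 1) * (N + m + 1)), μ (A (.inr (.inl (N, t i))))
          = ∑ i ∈ Finset.range ((m + 1) * (N + m + 1)),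
            ∫⁻ z, (A (.inr (.inl (N, t i)))).indicator 1 z ∂μ := by
              refine Finset.sum_congr rfl fun i _ => ?_
              rw [lintegral_indicator_one (isClopen_A _).isOpen.measurableSet]
        _ = ∫⁻ z, ∑ i ∈ Finset.range ((m + 1) * (N + m + 1)),
            (A (.inr (.inl (N, t i)))).indicator 1 z ∂μ := by
              rw [lintegral_finsetSum]
              intro i _
              exact measurable_one.indicator (isClopen_A _).isOpen.measurableSet
        _ ≤ ∫⁻ _, ((N + m : ℕ) : ENNReal) ∂μ := by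
              refine lintegral_mono fun z => ?_
              have h3 := count N m ((m + 1) * (N + m + 1)) u t ht1 ht2 z
              have h4 : ∑ i ∈ Finset.range ((m + 1) * (N + m + 1)),
                  (A (.inr (.inl (N, t i)))).indicator (1 : X → ENNReal) z =
                  (((Finset.range ((m + 1) * (N + m + 1))).filter
                    (fun i => z ∈ A (.inr (.inl (N, t i))))).card : ENNReal) := by
                simp [Set.indicator_apply, Finset.sum_boole]
              rw [h4]
              exact Nat.cast_le.2 h3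
        _ = ((N + m : ℕ) : ENNReal) := by simp [hμ]
    have h2 : (((m + 1) * (N + m + 1) : ℕ) : ENNReal) * ((m : ENNReal) + 1)⁻¹ ≤
        ∑ i ∈ Finset.range ((m + 1) * (N + m + 1)), μ (A (.inr (.inl (N, t i)))) := by
      have := Finset.card_nsmul_le_sum (Finset.range ((m + 1) * (N + m + 1)))
        (fun i => μ (A (.inr (.inl (N, t i))))) (((m : ENNReal) + 1)⁻¹) (fun i _ => (ht3 i).le)
      simpa [nsmul_eq_mul] using this
    have h3 : (((m + 1) * (N + m + 1) : ℕ) : ENNReal) * ((m : ENNReal) + 1)⁻¹ =
        ((N + m + 1 : ℕ) : ENNReal) := by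
      have h5 : ((m : ENNReal) + 1) ≠ 0 := by simp
      have h6 : ((m : ENNReal) + 1) ≠ ⊤ := by simp
      push_cast
      rw [mul_comm ((m : ENNReal) + 1), mul_assoc, ENNReal.mul_inv_cancel h5 h6, mul_one]
    rw [h3] at h2
    have h4 := h2.trans h1
    have h5 : N + m + 1 ≤ N + m := by exact_mod_cast h4
    omega
  choose g hg using key
  let u : ℕ → (ℕ → ℕ) := fun n => Nat.rec (fun _ => 0) (fun n w => Function.update w n (g n w)) n
  have hu : ∀ n, u (n + 1) = Function.update (u n) n (g n (u n)) := fun n => rfl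
  let t : T := fun n => g n (u n)
  have ht : ∀ n, ∀ k < n, t k = u n k := by
    intro n
    induction n with
    | zero => intro k hk; omega
    | succ n ih =>
      intro k hk
      rw [hu]
      rcases Nat.lt_succ_iff_lt_or_eq.1 hk with h | h
      · rw [Function.update_of_ne (by omega)]
        exact ih k h
      · subst h
        rw [Function.update_self]
  obtain ⟨n, hn⟩ := ENNReal.exists_inv_nat_lt (hcon t)
  have h7 := hg n (u n) t (ht n) rfl
  have h8 : ((n : ENNReal) + 1)⁻¹ ≤ (n : ENNReal)⁻¹ := by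
    apply ENNReal.inv_le_inv.2
    exact le_self_add
  exact absurd (h7.trans h8) (not_le.2 hn)

lemma avoids : AvoidsMeasures pt := by
  classical
  intro _ _ μ hμ hpt hsupp
  choose tt htt using fun N => exists_null μ hμ.prob N
  let Finf : Slow := ⟨fun N => {tt N}, fun r => by
    filter_upwards [eventually_ge_atTop r] with N hN
    simpa using hN⟩
  -- small neighbourhoods
  have hU : ∀ k : ℕ, ∃ U : Set X, IsOpen U ∧ pt ∈ U ∧ μ U < ((k : ENNReal) + 1)⁻¹ := by
    intro k
    have h1 := hμ.outer {pt} (measurableSet_singleton pt)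
    rw [hpt] at h1
    have h2 : (⨅ (U : Set X) (_ : IsOpen U ∧ {pt} ⊆ U), μ U) < ((k : ENNReal) + 1)⁻¹ := by
      rw [← h1]
      simp
    simp only [iInf_lt_iff] at h2
    obtain ⟨U, ⟨hU1, hU2⟩, hU3⟩ := h2
    exact ⟨U, hU1, by simpa using hU2, hU3⟩
  choose U hUo hUx hUm using hU
  have hI : ∀ k, ∃ I₀ : Finset Idx, ∀ z : X, (∀ i ∈ I₀, z.1 i = x0 i) → z ∈ U k := by
    intro k
    obtain ⟨O, hO, hOU⟩ := isOpen_induced_iff.1 (hUo k)
    have hx : x0 ∈ O := by
      have : pt ∈ Subtype.val ⁻¹' O := by rw [hOU]; exact hUx k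
      exact this
    obtain ⟨I₀, hI₀⟩ := exists_agree hO hx
    refine ⟨I₀, fun z hz => ?_⟩
    rw [← hOU]
    exact hI₀ _ hz
  choose I hI using hI
  let C : Set Slow := {Finf} ∪ ⋃ k, {F | (.inr (.inr F) : Idx) ∈ I k}
  have hC : C.Countable := by
    refine (countable_singleton _).union (countable_iUnion fun k => ?_)
    apply Set.Finite.countable
    have hinj : Function.Injective (fun F : Slow => (.inr (.inr F) : Idx)) := by
      intro a b hab
      simpa using hab
    exact (I k).finite_toSet.preimage hinj.injOn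
  obtain ⟨F, hF⟩ := diag' C hC ⟨Finf, Or.inl rfl⟩
  obtain ⟨m, hm⟩ := eventually_atTop.1 (hF Finf (Or.inl rfl))
  let V : Set X := {z | ∀ i ∈ insert (.inr (.inr F) : Idx) ((Finset.range m).image .inl), z.1 i = x0 i}
  have hVo : IsOpen V := (isOpen_agree x0 _).preimage continuous_subtype_val
  have hVx : pt ∈ V := fun i _ => rfl
  have hVF : ∀ z ∈ V, z.1 (.inr (.inr F)) = true := fun z hz => hz _ (Finset.mem_insert_self _ _)
  have hVn : ∀ z ∈ V, ∀ n < m, z.1 (.inl n) = false := fun z hz n hn =>
    hz _ (Finset.mem_insert_of_mem (Finset.mem_image.2 ⟨n, Finset.mem_range.2 hn, rfl⟩))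
  -- the remainder
  let R : Set X := {z | ∀ n : ℕ, z.1 (.inl n) = false}
  have hR : ∀ k, V ∩ R ⊆ U k := by
    rintro k z ⟨hzV, hzR⟩
    apply hI k z
    intro i hi
    match i, hi with
    | .inl n, hi => exact hzR n
    | .inr (.inl p), hi =>
      show z.1 (.inr (.inl p)) = false
      by_contra hne
      have hne' : z.1 (.inr (.inl p)) = true := by simpa using hne
      obtain ⟨N, S, hS, hag⟩ := approx z.2 {.inr (.inl p), .inl p.1}
      have h1 := hag (.inr (.inl p)) (by simp)
      have h2 := hag (.inl p.1) (by simp)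
      rw [hne'] at h1
      rw [hzR p.1] at h2
      simp only [e, decide_eq_true_eq, decide_eq_false_iff_not] at h1 h2
      exact h2 h1.1
    | .inr (.inr G), hi =>
      show z.1 (.inr (.inr G)) = true
      obtain ⟨m', hm'⟩ := eventually_atTop.1 (hF G (Or.inr (mem_iUnion.2 ⟨k, hi⟩)))
      obtain ⟨N, S, hS, hag⟩ := approx z.2
        (insert (.inr (.inr G)) (insert (.inr (.inr F)) ((Finset.range m').image .inl)))
      have h1 := hag (.inr (.inr G)) (by simp)
      have h2 := hag (.inr (.inr F)) (by simp)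
      rw [hVF z hzV] at h2
      have h3 : m' ≤ N := by
        by_contra hlt
        have h4 := hag (.inl N) (by
          refine Finset.mem_insert_of_mem (Finset.mem_insert_of_mem (Finset.mem_image.2
            ⟨N, Finset.mem_range.2 (by omega), rfl⟩)))
        rw [hzR N] at h4
        simp [e] at h4
      rw [← h1]
      simp only [e, decide_eq_true_eq] at h2 ⊢
      exact Subset.trans (by exact_mod_cast hm' N h3) h2
  have hVR : μ (V ∩ R) = 0 := by
    by_contra hne
    obtain ⟨n, hn⟩ := ENNReal.exists_inv_nat_lt hne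
    have h1 : μ (V ∩ R) ≤ ((n : ENNReal) + 1)⁻¹ := (measure_mono (hR n)).trans (hUm n).le
    have h8 : ((n : ENNReal) + 1)⁻¹ ≤ (n : ENNReal)⁻¹ := by
      apply ENNReal.inv_le_inv.2
      exact le_self_add
    exact absurd (h1.trans h8) (not_le.2 hn)
  have hVN : ∀ N : ℕ, μ (V ∩ A (.inl N)) = 0 := by
    intro N
    refine measure_mono_null ?_ (htt N)
    rintro z ⟨hzV, hzN⟩
    show z.1 (.inr (.inl (N, tt N))) = true
    obtain ⟨N', S, hS, hag⟩ := approx z.2
      {.inr (.inl (N, tt N)), .inl N, .inr (.inr F)}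
    have h1 := hag (.inr (.inl (N, tt N))) (by simp)
    have h2 := hag (.inl N) (by simp)
    have h3 := hag (.inr (.inr F)) (by simp)
    rw [hVF z hzV] at h3
    have hzN' : z.1 (.inl N) = true := hzN
    rw [hzN'] at h2
    have hmN : m ≤ N := by
      by_contra hlt
      have := hVn z hzV N (by omega)
      rw [this] at hzN'
      exact absurd hzN' (by simp)
    rw [← h1]
    simp only [e, decide_eq_true_eq] at h2 h3 ⊢
    subst h2
    refine ⟨rfl, h3 ?_⟩
    have := hm N' hmN
    exact_mod_cast this (by simp [Finf])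
  have hV : μ V = 0 := by
    have hsub : V ⊆ (V ∩ R) ∪ ⋃ N : ℕ, (V ∩ A (.inl N)) := by
      intro z hz
      by_cases hzR : z ∈ R
      · exact Or.inl ⟨hz, hzR⟩
      · have : ∃ n : ℕ, z.1 (.inl n) ≠ false := by
          by_contra hc
          push Not at hc
          exact hzR hc
        obtain ⟨n, hn⟩ := this
        exact Or.inr (mem_iUnion.2 ⟨n, hz, by simpa [A] using hn⟩)
    refine measure_mono_null hsub ?_
    rw [measure_union_null_iff]
    exact ⟨hVR, measure_iUnion_null hVN⟩
  have hVc : μ Vᶜ = 1 := by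
    have h1 : μ Vᶜ = μ univ - μ V := by
      rw [measure_compl hVo.measurableSet (by rw [hV]; simp)]
    rw [h1, hV, hμ.prob]
    simp
  exact hsupp Vᶜ ⟨hVo.isClosed_compl, hVc⟩ hVx

/-! ## The union of the spaces `K N` is ccc -/

def Y : Set X := {z | z.1 ∈ Y0}

lemma pt_notMem : pt ∉ Y := by
  rintro ⟨N, S, -, h⟩
  have := congrFun h (.inl N)
  simp [pt, x0, e] at this

lemma pt_closure : pt ∈ closure Y := by
  rw [closure_subtype]
  have : Subtype.val '' Y = Y0 := by
    ext z
    constructor
    · rintro ⟨w, hw, rfl⟩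
      exact hw
    · intro hz
      exact ⟨⟨z, subset_closure hz⟩, hz, rfl⟩
  rw [this]
  exact x0_mem

lemma exists_sep (D : Finset T) : ∃ n : ℕ, 2 * D.card ≤ n ∧
    ∀ r ∈ D, ∀ r' ∈ D, (∀ i < n, r i = r' i) → r = r' := by
  have h1 : ∀ᶠ n in atTop, ∀ r ∈ D, ∀ r' ∈ D, (∀ i < n, r i = r' i) → r = r' := by
    rw [Filter.eventually_all_finset]
    intro r _
    rw [Filter.eventually_all_finset]
    intro r' _
    by_cases h : r = r'
    · exact Eventually.of_forall fun _ _ => h
    · obtain ⟨i, hi⟩ := Function.ne_iff.1 h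
      filter_upwards [eventually_gt_atTop i] with n hn h2
      exact absurd (h2 i hn) hi
  obtain ⟨n, hn1, hn2⟩ := (h1.and (eventually_ge_atTop (2 * D.card))).exists
  exact ⟨n, hn2, hn1⟩

/-- A nonempty open subset of `Y` contains all points of a basic clopen set. -/
lemma exists_type (U : Set Y) (hU : IsOpen U) (hne : U.Nonempty) :
    ∃ (N n : ℕ) (D G : Finset T), G ⊆ D ∧ 2 * D.card ≤ n ∧
      (∀ r ∈ D, ∀ r' ∈ D, (∀ i < n, r i = r' i) → r = r') ∧ Adm N (G : Set T) ∧
      ∀ S : Set T, Adm N S → (∀ r ∈ D, r ∈ S ↔ r ∈ G) → ∃ y ∈ U, y.1.1 = e N S := by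
  classical
  obtain ⟨y, hy⟩ := hne
  obtain ⟨O', hO', hOU'⟩ := isOpen_induced_iff.1 hU
  obtain ⟨O, hO, hOU⟩ := isOpen_induced_iff.1 hO'
  obtain ⟨N, S, hS, hyS⟩ := y.2
  have hyO : e N S ∈ O := by
    rw [← hyS]
    have h1 : y ∈ Subtype.val ⁻¹' O' := by rw [hOU']; exact hy
    have h2 : y.1 ∈ Subtype.val ⁻¹' O := by rw [hOU]; exact h1
    exact h2
  obtain ⟨I₀, hI⟩ := exists_agree hO hyO
  let f : Idx → Finset T := fun i =>
    match i with
    | .inl _ => ∅
    | .inr (.inl p) => {p.2}
    | .inr (.inr F) => F.1 N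
  let D : Finset T := I₀.biUnion f
  obtain ⟨n, hn1, hn2⟩ := exists_sep D
  refine ⟨N, n, D, D.filter (· ∈ S), Finset.filter_subset _ _, hn1, hn2, ?_, ?_⟩
  · intro j W hW h1 h2
    refine hS j W ?_ h1 h2
    intro r hr
    have := hW hr
    exact (Finset.mem_filter.1 (Finset.mem_coe.1 this)).2
  · intro S' hS' hD
    have hD' : ∀ r ∈ D, (r ∈ S' ↔ r ∈ S) := by
      intro r hr
      rw [hD r hr]
      simp [hr]
    have hmem : e N S' ∈ O := by
      apply hI
      intro i hi
      match i, hi with
      | .inl k, hi => rfl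
      | .inr (.inl p), hi =>
        have h1 : p.2 ∈ D := Finset.subset_biUnion_of_mem f hi (by simp [f])
        simp only [e, hD' _ h1]
      | .inr (.inr F), hi =>
        have h1 : F.1 N ⊆ D := Finset.subset_biUnion_of_mem f hi
        have h2 : (F.1 N : Set T) ⊆ S' ↔ (F.1 N : Set T) ⊆ S := by
          constructor
          · intro h r hr
            exact (hD' r (h1 hr)).1 (h hr)
          · intro h r hr
            exact (hD' r (h1 hr)).2 (h hr)
        simp only [e, h2]
    have hY0 : e N S' ∈ Y0 := ⟨N, S', hS', rfl⟩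
    let w : X := ⟨e N S', subset_closure hY0⟩
    have hw : w ∈ Y := hY0
    refine ⟨⟨w, hw⟩, ?_, rfl⟩
    rw [← hOU']
    show w ∈ O'
    rw [← hOU]
    exact hmem

lemma adm_union {N n : ℕ} {G G' : Finset T} (hG : Adm N (G : Set T))
    (hc : 2 * G.card ≤ n) (hc' : 2 * G'.card ≤ n)
    (h : ∀ r ∈ G', ∃ r' ∈ G, ∀ i < n, r' i = r i) :
    Adm N ((G : Set T) ∪ G') := by
  classical
  intro j W hW h1 h2
  rcases lt_or_ge j n with hj | hj
  · have h3 : ∀ r ∈ W, ∃ r' ∈ G, ∀ i < n, r' i = r i := by
      intro r hr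
      rcases hW hr with hrG | hrG
      · exact ⟨r, hrG, fun _ _ => rfl⟩
      · exact h r hrG
    choose! p hp1 hp2 using h3
    have hinj : Set.InjOn p (W : Set T) := by
      intro r hr r' hr' hrr
      apply h2 hr hr'
      show r j = r' j
      rw [← hp2 r hr j hj, ← hp2 r' hr' j hj, hrr]
    have := hG j (W.image p) (by
        intro r hr
        obtain ⟨r', hr', rfl⟩ := Finset.mem_image.1 (Finset.mem_coe.1 hr)
        exact hp1 r' hr')
      (by
        intro r hr s hs i hi
        obtain ⟨r', hr', rfl⟩ := Finset.mem_image.1 hr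
        obtain ⟨s', hs', rfl⟩ := Finset.mem_image.1 hs
        rw [hp2 r' hr' i (by omega), hp2 s' hs' i (by omega)]
        exact h1 r' hr' s' hs' i hi)
      (by
        intro r hr s hs hrs
        obtain ⟨r', hr', rfl⟩ := Finset.mem_image.1 (Finset.mem_coe.1 hr)
        obtain ⟨s', hs', rfl⟩ := Finset.mem_image.1 (Finset.mem_coe.1 hs)
        have h4 : r' j = s' j := by
          rw [← hp2 r' hr' j hj, ← hp2 s' hs' j hj]
          exact hrs
        rw [h2 hr' hs' h4])
    rwa [Finset.card_image_of_injOn hinj] at this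
  · have h3 : W ⊆ G ∪ G' := by
      intro r hr
      rcases hW hr with h4 | h4
      · exact Finset.mem_union_left _ h4
      · exact Finset.mem_union_right _ h4
    have h4 := Finset.card_le_card h3
    have h5 := Finset.card_union_le G G'
    omega

lemma ccc_Y : IsCcc Y := by
  classical
  intro 𝒰 hU hdisj
  choose! N n D G hGD hn hsep hadm hS using fun U (h : U ∈ 𝒰) => exists_type U (hU U h).1 (hU U h).2
  let τ : Set Y → ℕ × ℕ × Finset (List ℕ) := fun U =>
    (N U, n U, (G U).image (fun r => (List.range (n U)).map r))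
  have hinj : Set.InjOn τ 𝒰 := by
    intro U hU1 U' hU1' hτ
    by_contra hne
    have hN : N U = N U' := congrArg Prod.fst hτ
    have hn' : n U = n U' := congrArg (fun p => p.2.1) hτ
    have hI : (G U).image (fun r => (List.range (n U)).map r) =
      (G U').image (fun r => (List.range (n U')).map r) := congrArg (fun p => p.2.2) hτ
    have hex : ∀ r ∈ G U', ∃ r' ∈ G U, ∀ i < n U, r' i = r i := by
      intro r hr
      have h1 : (List.range (n U')).map r ∈ (G U).image (fun r => (List.range (n U)).map r) := by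
        rw [hI]
        exact Finset.mem_image.2 ⟨r, hr, rfl⟩
      obtain ⟨r', hr', h2⟩ := Finset.mem_image.1 h1
      refine ⟨r', hr', fun i hi => ?_⟩
      rw [hn'] at h2 hi
      exact List.map_inj_left.1 h2 i (List.mem_range.2 hi)
    have hex' : ∀ r ∈ G U, ∃ r' ∈ G U', ∀ i < n U', r' i = r i := by
      intro r hr
      have h1 : (List.range (n U)).map r ∈ (G U').image (fun r => (List.range (n U')).map r) := by
        rw [← hI]
        exact Finset.mem_image.2 ⟨r, hr, rfl⟩
      obtain ⟨r', hr', h2⟩ := Finset.mem_image.1 h1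
      refine ⟨r', hr', fun i hi => ?_⟩
      rw [hn'] at h2
      exact List.map_inj_left.1 h2 i (List.mem_range.2 hi)
    have hc : 2 * (G U).card ≤ n U := by
      have := Finset.card_le_card (hGD U hU1)
      have := hn U hU1
      omega
    have hc' : 2 * (G U').card ≤ n U := by
      have := Finset.card_le_card (hGD U' hU1')
      have := hn U' hU1'
      omega
    have hA : Adm (N U) ((G U : Set T) ∪ G U') := adm_union (hadm U hU1) hc hc' hex
    obtain ⟨y, hy, hy2⟩ := hS U hU1 _ hA (by
      intro r hr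
      constructor
      · rintro (h | h)
        · exact h
        · obtain ⟨r', hr', h2⟩ := hex r h
          have := hsep U hU1 r' (hGD U hU1 hr') r hr h2
          rw [← this]
          exact hr'
      · intro h
        exact Or.inl h)
    have hA' : Adm (N U') ((G U : Set T) ∪ G U') := by rw [← hN]; exact hA
    obtain ⟨y', hy', hy2'⟩ := hS U' hU1' _ hA' (by
      intro r hr
      constructor
      · rintro (h | h)
        · obtain ⟨r', hr', h2⟩ := hex' r h
          have := hsep U' hU1' r' (hGD U' hU1' hr') r hr h2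
          rw [← this]
          exact hr'
        · exact h
      · intro h
        exact Or.inr h)
    have heq : y = y' := by
      apply Subtype.ext
      apply Subtype.ext
      rw [hy2, hy2', hN]
    subst heq
    exact Set.disjoint_left.1 (hdisj hU1 hU1' hne) hy hy'
  exact Set.countable_of_injective_of_countable_image hinj (Set.to_countable _)

/-- There are a compact Hausdorff space and a point of it which avoids measures and which does not
avoid ccc spaces. -/
theorem result : ∃ (X : Type) (_ : TopologicalSpace X) (_ : CompactSpace X) (_ : T2Space X) (x : X),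
    AvoidsMeasures x ∧ ¬ AvoidsCcc x :=
  ⟨X, inferInstance, inferInstance, inferInstance, pt, avoids,
    fun h => h Y ccc_Y pt_notMem pt_closure⟩

end Pool.Agent.Results.MP_843a88_gt.AvoidsMeasuresNotCcc
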